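import Pool.Agent.W714.Coin.Round

set_option autoImplicit false

/-!
# MP_61130f_an: only circles give an integrable map of the capped cylinder

The curve, the phase cylinder, the billiard map `T₁`, the map `T₂` and rotational invariant curves
are defined in `Pool/Agent/H738R2/CylStmt.lean`, integrability in
`Pool/Agent/W714/Coin/Defs.lean`.
-/

namespace Pool.Agent.Results.MP_61130f_an.OnlyCircles

open Pool.Agent.H738R2.Cyl Pool.Agent.W714.Coin

/-- **Integrable shapes for the geodesic map on a capped cylinder.**  Let `γ` be a `C^∞` strictly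
convex closed curve of length `L`.  It has exactly one billiard map `T₁`, and for every `d > 0` the
map `T = T₂ ∘ T₁` is integrable if and only if `γ` is a circle. -/
theorem result (γ : ℝ → ℂ) (L : ℝ) (hγ : StrictlyConvexCurve γ L) :
    (∃! T₁ : PhaseCylinder L → PhaseCylinder L, IsBilliardMap γ L T₁) ∧
      ∀ d : ℝ, 0 < d → ∀ T₁ : PhaseCylinder L → PhaseCylinder L, IsBilliardMap γ L T₁ →
        (IsIntegrable (cylinderMap L d ∘ T₁) ↔
          ∃ (c : ℂ) (r : ℝ), Set.range γ = Metric.sphere c r) := by
  refine ⟨⟨bmap hγ, isBilliardMap_bmap hγ, fun T₁ h => eq_bmap hγ h⟩, fun d hd T₁ hT => ?_⟩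
  rw [eq_bmap hγ hT]
  constructor
  · intro hI
    exact circle_of_third hγ fun s => third_deriv hγ s fun ε hε =>
      exists_short_chord hγ hd hI (s : AddCircle L) hε
  · rintro ⟨c, r, hr⟩
    exact integrable_of_circle hγ d hr

end Pool.Agent.Results.MP_61130f_an.OnlyCircles
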